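import Pool.Agent.Helper54.PT.DefsG
import Pool.Agent.Helper57.TW.C6
import Pool.Agent.Helper19.TW.C5b

/-!
# TG module G11: independence of the classes of the differences
-/

set_option autoImplicit false

namespace Pool.Agent.Helper20.TG

open Polynomial Finset Filter Topology Module Pool.Agent.Helper43.TW Pool.Agent.Helper47.BSD
open Pool.Agent.Helper54.PT

/-- A functional on pairs, in coordinates. -/
theorem functional_eq {R : Type} [CommRing R] {T : Type} [Fintype T] [DecidableEq T]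
    (φ : ((T → R) × R) →ₗ[R] R) (v : T → R) :
    ∑ s, φ (Pi.single s 1, 0) * v s + φ (0, 1) = φ (v, 1) := by
  have h1 : (v, (1 : R)) = (∑ s, v s • ((Pi.single s 1 : T → R), (0 : R))) + (0, 1) := by
    refine Prod.ext ?_ ?_
    · simp only [Prod.fst_add, Prod.fst_sum, Prod.smul_fst, add_zero]
      funext t
      rw [Finset.sum_apply]
      simp [Pi.single_apply]
    · simp only [Prod.snd_add, Prod.snd_sum, Prod.smul_snd, smul_zero, sum_const_zero, zero_add]
  rw [h1, map_add, map_sum]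
  congr 1
  refine sum_congr rfl fun s _ => ?_
  rw [map_smul, smul_eq_mul, mul_comm]

/-- The dual functionals of a linearly independent family. -/
theorem exists_dual {R : Type} [Field R] {E : Type} [AddCommGroup E] [Module R E] {P : Type}
    [Fintype P] [DecidableEq P] (V : P → E) (hV : ∀ g : P → R, ∑ p, g p • V p = 0 → ∀ p, g p = 0)
    (p : P) : ∃ φ : E →ₗ[R] R, ∀ q, φ (V q) = if p = q then 1 else 0 := by
  have hinj : LinearMap.ker (Fintype.linearCombination R V) = ⊥ := by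
    rw [LinearMap.ker_eq_bot']
    intro g hg
    rw [Fintype.linearCombination_apply] at hg
    exact funext (hV g hg)
  obtain ⟨g, hg⟩ := LinearMap.exists_leftInverse_of_injective _ hinj
  refine ⟨(LinearMap.proj p).comp g, fun q => ?_⟩
  have h1 : Fintype.linearCombination R V (Pi.single q 1) = V q := by
    rw [Fintype.linearCombination_apply_single, one_smul]
  have h2 := LinearMap.congr_fun hg (Pi.single q (1 : R))
  rw [LinearMap.comp_apply, h1, LinearMap.id_apply] at h2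
  rw [LinearMap.comp_apply, h2, LinearMap.proj_apply, Pi.single_apply]

end Pool.Agent.Helper20.TG

namespace Pool.Agent.Helper54.PT

open Polynomial Finset Filter Topology Module Pool.Agent.Helper43.TW Pool.Agent.Helper47.BSD

namespace G11

theorem AG_symm' {F : Type} [Field F] {ℓ : ℕ} [Fact ℓ.Prime] {lg : F → ZMod ℓ} (hlg : IsLog ℓ lg)
    (hm : lg (-1) = 0) {ι σ : Type} (R : σ → Prm F) (e : ι → F[X]) (i j : ι) (s : Option σ) :
    AG R lg e i j s = AG R lg e j i s := by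
  by_cases hij : e i = e j
  · unfold AG
    rw [hij]
  have h0 : algebraMap F[X] (RatFunc F) (e j - e i) ≠ 0 := by
    rw [Ne, FaithfulSMul.algebraMap_eq_zero_iff]
    exact sub_ne_zero.2 (Ne.symm hij)
  have h1 : algebraMap F[X] (RatFunc F) (e i - e j) =
      algebraMap F[X] (RatFunc F) (C (-1)) * algebraMap F[X] (RatFunc F) (e j - e i) := by
    rw [← map_mul]
    congr 1
    simp
  have hc : (-1 : F) ≠ 0 := neg_ne_zero.2 one_ne_zero
  have h2 : algebraMap F[X] (RatFunc F) (C (-1)) ≠ 0 := by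
    rw [Ne, FaithfulSMul.algebraMap_eq_zero_iff]
    exact C_ne_zero.2 hc
  unfold AG
  rw [h1]
  cases s with
  | some r =>
    change ((ordK (R r) _ : ℤ) : ZMod ℓ) = ((ordK (R r) _ : ℤ) : ZMod ℓ)
    rw [ordK_mul (R r) h2 h0, ordK_const (R r) hc, zero_add]
  | none =>
    change lg (lcK _) = lg (lcK _)
    rw [lcK_mul h2 h0, hlg.1 _ _ (lcK_ne_zero h2) (lcK_ne_zero h0), lcK_poly, leadingCoeff_C, hm,
      zero_add]

theorem lg_one {F : Type} [Field F] {ℓ : ℕ} {lg : F → ZMod ℓ} (hlg : IsLog ℓ lg) :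
    lg 1 = 0 := (hlg.2.1 1 one_ne_zero).2 ⟨1, one_pow _⟩

theorem lg_prod_pow {F : Type} [Field F] {ℓ : ℕ} {lg : F → ZMod ℓ} (hlg : IsLog ℓ lg)
    {P : Type} (s : Finset P) (c : P → F) (hc : ∀ p, c p ≠ 0) (m : P → ℕ) :
    lg (∏ p ∈ s, c p ^ m p) = ∑ p ∈ s, (m p : ZMod ℓ) * lg (c p) := by
  classical
  have hpow : ∀ p, ∀ n : ℕ, lg (c p ^ n) = (n : ZMod ℓ) * lg (c p) := by
    intro p n
    induction n with
    | zero => rw [pow_zero, lg_one hlg, Nat.cast_zero, zero_mul]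
    | succ n ih =>
      rw [pow_succ, hlg.1 _ _ (pow_ne_zero _ (hc p)) (hc p), ih]
      push_cast
      ring
  induction s using Finset.induction_on with
  | empty => rw [prod_empty, sum_empty, lg_one hlg]
  | insert p s hp ih =>
    rw [prod_insert hp, sum_insert hp, hlg.1 _ _ (pow_ne_zero _ (hc p))
      (prod_ne_zero_iff.2 fun q _ => pow_ne_zero _ (hc q)), ih, hpow]

theorem mult_prod_pow {F : Type} [Field F] (Q : Prm F) {P : Type} (s : Finset P) (d : P → F[X])
    (hd : ∀ p, d p ≠ 0) (m : P → ℕ) :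
    multiplicity Q.1 (∏ p ∈ s, d p ^ m p) = ∑ p ∈ s, m p * multiplicity Q.1 (d p) := by
  classical
  have hpr : Prime Q.1 := Q.2.2.prime
  induction s using Finset.induction_on with
  | empty =>
    rw [prod_empty, sum_empty]
    exact multiplicity_eq_zero.2 fun h => Q.2.2.not_isUnit (isUnit_of_dvd_one h)
  | insert p s hp ih =>
    have h1 : d p ^ m p ≠ 0 := pow_ne_zero _ (hd p)
    have h2 : ∏ q ∈ s, d q ^ m q ≠ 0 := prod_ne_zero_iff.2 fun q _ => pow_ne_zero _ (hd q)
    rw [prod_insert hp, sum_insert hp, ← ih,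
      multiplicity_mul hpr (FiniteMultiplicity.of_prime_left hpr (mul_ne_zero h1 h2)),
      (FiniteMultiplicity.of_prime_left hpr (hd p)).multiplicity_pow hpr]

end G11

section Global

variable {F : Type} [Field F] [Finite F] {ℓ : ℕ} [Fact ℓ.Prime] {ι : Type} [Fintype ι]
  [DecidableEq ι] {σ : Type} [Fintype σ] [DecidableEq σ] {a : ι → ℕ} {e : ι → F[X]}
  {R : σ → Prm F} {lg : F → ZMod ℓ}

omit [Finite F] [DecidableEq ι] [DecidableEq σ] in
/-- The vectors of the differences are linearly independent. -/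
theorem G11.indep (hlg : IsLog ℓ lg) [LinearOrder ι] (hS : SetupG R e)
    (hind : ∀ m : {p : ι × ι // p.1 < p.2} → ℕ, ℓ ∣ ∑ p, m p →
      (∃ f : F[X], ∏ p, (e p.1.1 - e p.1.2) ^ m p = f ^ ℓ) → ∀ p, ℓ ∣ m p)
    (g : {p : ι × ι // p.1 < p.2} → ZMod ℓ)
    (hg : ∑ p, g p • ((AG R lg e p.1.1 p.1.2, 1) : (Option σ → ZMod ℓ) × ZMod ℓ) = 0) :
    ∀ p, g p = 0 := by
  have hℓ : ℓ.Prime := Fact.out
  have : NeZero ℓ := ⟨hℓ.ne_zero⟩
  set m : {p : ι × ι // p.1 < p.2} → ℕ := fun p => (g p).val with hm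
  have hmg : ∀ p, (m p : ZMod ℓ) = g p := fun p => ZMod.natCast_zmod_val _
  have hg1 : ∀ s, ∑ p, g p * AG R lg e p.1.1 p.1.2 s = 0 := by
    intro s
    have := congrArg (fun x : (Option σ → ZMod ℓ) × ZMod ℓ => x.1 s) hg
    simpa [Prod.fst_sum, Finset.sum_apply] using this
  have hg2 : ∑ p, g p = 0 := by
    have := congrArg (fun x : (Option σ → ZMod ℓ) × ZMod ℓ => x.2) hg
    simpa [Prod.snd_sum] using this
  have hd0 : ∀ p : {p : ι × ι // p.1 < p.2}, e p.1.1 - e p.1.2 ≠ 0 := fun p =>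
    sub_ne_zero.2 (hS.ne _ _ (ne_of_lt p.2))
  have h1 : ℓ ∣ ∑ p, m p := by
    rw [← CharP.cast_eq_zero_iff (ZMod ℓ) ℓ, Nat.cast_sum]
    exact (sum_congr rfl fun p _ => hmg p).trans hg2
  have h2 : ∃ f : F[X], ∏ p, (e p.1.1 - e p.1.2) ^ m p = f ^ ℓ := by
    set x := ∏ p, (e p.1.1 - e p.1.2) ^ m p with hx
    have hx0 : x ≠ 0 := prod_ne_zero_iff.2 fun p _ => pow_ne_zero _ (hd0 p)
    have hmul : ∀ Q : Prm F, ℓ ∣ multiplicity Q.1 x := by
      intro Q
      have h9 := G11.mult_prod_pow Q (univ : Finset {p : ι × ι // p.1 < p.2})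
        (fun p : {p : ι × ι // p.1 < p.2} => e p.1.1 - e p.1.2) hd0 m
      rw [hx, h9]
      by_cases hQ : ∃ r, R r = Q
      · obtain ⟨r, rfl⟩ := hQ
        rw [← CharP.cast_eq_zero_iff (ZMod ℓ) ℓ, Nat.cast_sum]
        refine Eq.trans ?_ (hg1 (some r))
        refine sum_congr rfl fun p _ => ?_
        rw [Nat.cast_mul, hmg p]
        congr 1
        change _ = ((ordK (R r) _ : ℤ) : ZMod ℓ)
        rw [ordK_poly (R r) (hd0 p)]
        push_cast
        rfl
      · refine dvd_sum fun p _ => ?_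
        have h3 : ¬ Q.1 ∣ e p.1.1 - e p.1.2 := fun h =>
          hQ ((hS.mem Q).2 ⟨_, _, ne_of_lt p.2, h⟩)
        rw [multiplicity_eq_zero.2 h3, mul_zero]
        exact dvd_zero _
    obtain ⟨f, hf⟩ := c6_poly x hx0 hmul
    have hlc : lg x.leadingCoeff = 0 := by
      rw [hx, leadingCoeff_prod]
      simp only [leadingCoeff_pow]
      have hd1 : ∀ p : {p : ι × ι // p.1 < p.2}, (e p.1.1 - e p.1.2).leadingCoeff ≠ 0 :=
        fun p => leadingCoeff_ne_zero.2 (hd0 p)
      have h9 := G11.lg_prod_pow hlg (univ : Finset {p : ι × ι // p.1 < p.2})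
        (fun p : {p : ι × ι // p.1 < p.2} => (e p.1.1 - e p.1.2).leadingCoeff) hd1 m
      rw [h9]
      refine Eq.trans ?_ (hg1 none)
      refine sum_congr rfl fun p _ => ?_
      rw [hmg p]
      congr 1
      change _ = lg (lcK _)
      rw [lcK_poly]
    obtain ⟨y, hy⟩ := (hlg.2.1 _ (leadingCoeff_ne_zero.2 hx0)).1 hlc
    refine ⟨C y * f, ?_⟩
    rw [mul_pow, ← C_pow, hy]
    exact hf
  intro p
  have h3 := hind m h1 h2 p
  rw [← hmg p]
  exact (CharP.cast_eq_zero_iff (ZMod ℓ) ℓ _).2 h3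

/-- G11: independence of the classes of the differences -/
theorem indA_of (hlg : IsLog ℓ lg) (hm : lg (-1) = 0) [LinearOrder ι] (hS : SetupG R e)
    (hind : ∀ m : {p : ι × ι // p.1 < p.2} → ℕ, ℓ ∣ ∑ p, m p →
      (∃ f : F[X], ∏ p, (e p.1.1 - e p.1.2) ^ m p = f ^ ℓ) → ∀ p, ℓ ∣ m p) :
    IndA (AG R lg e) := by
  have key : ∀ i j : ι, i < j → ∃ (c : Option σ → ZMod ℓ) (c₀ : ZMod ℓ), ∀ m n, m ≠ n →
      ∑ s, c s * AG R lg e m n s + c₀ = if s(m, n) = s(i, j) then 1 else 0 := by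
    intro i j hij
    obtain ⟨φ, hφ⟩ := Pool.Agent.Helper20.TG.exists_dual
      (fun p : {p : ι × ι // p.1 < p.2} =>
        ((AG R lg e p.1.1 p.1.2, 1) : (Option σ → ZMod ℓ) × ZMod ℓ))
      (G11.indep hlg hS hind) ⟨(i, j), hij⟩
    refine ⟨fun s => φ (Pi.single s 1, 0), φ (0, 1), fun m n hmn => ?_⟩
    refine (Pool.Agent.Helper20.TG.functional_eq φ (AG R lg e m n)).trans ?_
    rcases lt_or_gt_of_ne hmn with h | h
    · refine (hφ ⟨(m, n), h⟩).trans ?_
      refine if_congr ?_ rfl rfl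
      rw [Subtype.mk.injEq, Prod.mk.injEq, Sym2.eq_iff]
      constructor
      · rintro ⟨rfl, rfl⟩
        exact Or.inl ⟨rfl, rfl⟩
      · rintro (⟨rfl, rfl⟩ | ⟨rfl, rfl⟩)
        · exact ⟨rfl, rfl⟩
        · exact absurd hij (not_lt_of_gt h)
    · have h5 : AG R lg e m n = AG R lg e n m := funext fun s => G11.AG_symm' hlg hm R e m n s
      rw [h5]
      refine (hφ ⟨(n, m), h⟩).trans ?_
      refine if_congr ?_ rfl rfl
      rw [Subtype.mk.injEq, Prod.mk.injEq, Sym2.eq_iff]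
      constructor
      · rintro ⟨rfl, rfl⟩
        exact Or.inr ⟨rfl, rfl⟩
      · rintro (⟨rfl, rfl⟩ | ⟨rfl, rfl⟩)
        · exact absurd hij (not_lt_of_gt h)
        · exact ⟨rfl, rfl⟩
  intro i j hij
  rcases lt_or_gt_of_ne hij with h | h
  · exact key i j h
  · rw [Sym2.eq_swap]
    exact key j i h

end Global

end Pool.Agent.Helper54.PT
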